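import Pool.Agent.helper80.HH.SpecA

/-!
# Row hh:ACV (MP_07c750_an): the cells of the leaf set
-/

open MeasureTheory Set

set_option autoImplicit false

namespace Pool.Agent.HH

noncomputable section

theorem ACV_fib (s : Finset ℤ) (f : ℤ → ℤ) (c : ℝ) (h : ∀ k ∈ s.image f, ((s.filter fun a => f a = k).card : ℝ) ≤ c) :
    (s.card : ℝ) ≤ (s.image f).card * c := by
  have h1 : s.card = ∑ k ∈ s.image f, (s.filter fun a => f a = k).card := Finset.card_eq_sum_card_image f s
  rw [h1]
  push_cast
  calc ∑ k ∈ s.image f, ((s.filter fun a => f a = k).card : ℝ) ≤ ∑ _k ∈ s.image f, c := Finset.sum_le_sum h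
    _ = (s.image f).card * c := by rw [Finset.sum_const, nsmul_eq_mul]

theorem ACV_proof : ACV_stmt := by
  classical
  intro C m L Y hC hL1 hL2 hY
  have hE : 0 < Real.exp (4000 * m) := Real.exp_pos _
  have hLR : (0 : ℝ) < L := lt_of_lt_of_le hE hL1
  have hinv : 1 / (L : ℝ) ≤ Real.exp (-(4000 * m)) := by
    rw [Real.exp_neg, ← one_div]
    exact one_div_le_one_div_of_le hE hL1
  refine ⟨?_, ?_, ?_, ?_⟩
  · intro a
    refine le_trans (measureReal_mono ?_ ?_) (hY.v1 ((a : ℝ) / L))
    · rintro v ⟨hv, ha⟩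
      refine ⟨hv, ?_⟩
      have ha' : ⌊v * L⌋ = a := ha
      rw [Int.floor_eq_iff] at ha'
      have h1 : (a : ℝ) / L ≤ v := by
        rw [div_le_iff₀ hLR]
        exact ha'.1
      have h2 : v < (a : ℝ) / L + 1 / L := by
        rw [← add_div, lt_div_iff₀ hLR]
        exact ha'.2
      have h3 := Real.exp_pos (-(4000 * (m : ℝ)))
      constructor <;> linarith
    · exact ne_top_of_le_ne_top (by simp) (measure_mono inter_subset_right)
  · have h0 : ∀ a ∈ ac L Y, ∃ x ∈ Y, ⌊x * L⌋ = a := fun a ha => (Finset.mem_filter.1 ha).2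
    choose! x hxY hxa using h0
    have h1 := hY.cl 0 4000 (by norm_num) le_rfl (1 / 2) ((ac L Y).image fun a => ⌊x a * Real.exp ((4000 : ℕ) * m)⌋) (by
      intro k hk
      rw [Finset.mem_image] at hk
      obtain ⟨a, ha, rfl⟩ := hk
      refine ⟨x a, hxY a ha, ?_, rfl⟩
      have h2 := hY.sb (hxY a ha)
      have h3 : Real.exp (-(((0 : ℕ) : ℝ) * m)) = 1 := by simp
      rw [h3, abs_le]
      constructor <;> linarith [h2.1, h2.2])
    have h2 := ACV_fib (ac L Y) (fun a => ⌊x a * Real.exp ((4000 : ℕ) * m)⌋) (C + 2) (by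
      intro k _
      set α : ℝ := k * Real.exp (-(4000 * m)) * L with hα
      set β : ℝ := Real.exp (-(4000 * m)) * L with hβ
      have hβC : β ≤ C := by
        have h3 := mul_le_mul_of_nonneg_left hL2 (Real.exp_pos (-(4000 * (m : ℝ)))).le
        have h4 : Real.exp (-(4000 * m)) * (C * Real.exp (4000 * m)) = C := by
          rw [mul_left_comm, ← Real.exp_add]
          simp
        rw [h4] at h3
        exact h3
      have hsub : ((ac L Y).filter fun a => ⌊x a * Real.exp ((4000 : ℕ) * m)⌋ = k) ⊆ Finset.Icc ⌊α⌋ ⌊α + β⌋ := by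
        intro a ha
        rw [Finset.mem_filter] at ha
        obtain ⟨ha, hk⟩ := ha
        rw [Int.floor_eq_iff] at hk
        have h5 := hxa a ha
        rw [Int.floor_eq_iff] at h5
        have hc : ((4000 : ℕ) : ℝ) = 4000 := by norm_num
        rw [hc] at hk
        have h6 : Real.exp (4000 * m) * Real.exp (-(4000 * m)) = 1 := by
          rw [← Real.exp_add]
          simp
        have hpos := Real.exp_pos (-(4000 * (m : ℝ)))
        have h7 : (k : ℝ) * Real.exp (-(4000 * m)) ≤ x a := by
          have := mul_le_mul_of_nonneg_right hk.1 hpos.le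
          rwa [mul_assoc, h6, mul_one] at this
        have h8 : x a < ((k : ℝ) + 1) * Real.exp (-(4000 * m)) := by
          have := mul_lt_mul_of_pos_right hk.2 hpos
          rwa [mul_assoc, h6, mul_one] at this
        have h9 : α ≤ x a * L := mul_le_mul_of_nonneg_right h7 hLR.le
        have h10 : x a * L < α + β := by
          have := mul_lt_mul_of_pos_right h8 hLR
          have e : ((k : ℝ) + 1) * Real.exp (-(4000 * m)) * L = α + β := by
            rw [hα, hβ]
            ring
          rwa [e] at this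
        rw [Finset.mem_Icc]
        constructor
        · have h15 : ((⌊α⌋ : ℤ) : ℝ) < a + 1 := lt_of_le_of_lt (Int.floor_le α) (h9.trans_lt h5.2)
          have h16 : ⌊α⌋ < a + 1 := by exact_mod_cast h15
          omega
        · rw [Int.le_floor]
          linarith [h5.1]
      refine (Nat.cast_le.2 (Finset.card_le_card hsub)).trans ?_
      rw [Int.card_Icc]
      have h11 := Int.floor_le (α + β)
      have h12 := Int.lt_floor_add_one α
      have h13 : ((⌊α + β⌋ + 1 - ⌊α⌋ : ℤ) : ℝ) ≤ C + 2 := by
        push_cast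
        linarith
      have h14 : (((⌊α + β⌋ + 1 - ⌊α⌋).toNat : ℕ) : ℝ) = max ((⌊α + β⌋ + 1 - ⌊α⌋ : ℤ) : ℝ) 0 := by
        have := Int.toNat_eq_max (⌊α + β⌋ + 1 - ⌊α⌋)
        exact_mod_cast this
      rw [h14]
      exact max_le h13 (by linarith))
    have h3 : ((((ac L Y).image fun a => ⌊x a * Real.exp ((4000 : ℕ) * m)⌋).card : ℕ) : ℝ) ≤ C * Real.exp ((1 / 2 + eta) * (4000 * m)) := by
      refine h1.trans (le_of_eq ?_)
      norm_num
    refine h2.trans ?_
    have h4 := mul_le_mul_of_nonneg_right h3 (by linarith : (0 : ℝ) ≤ C + 2)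
    refine h4.trans (le_of_eq ?_)
    ring
  · intro a ha
    have := (Finset.mem_filter.1 ha).1
    rw [Finset.mem_Icc] at this
    exact this
  · intro i j hij hj v K hK
    have hmR : (0 : ℝ) ≤ m := Nat.cast_nonneg m
    have hiR : (i : ℝ) ≤ 4000 := by exact_mod_cast (hij.le.trans hj)
    have hjR : (j : ℝ) ≤ 4000 := by exact_mod_cast hj
    have hr : 1 / (L : ℝ) ≤ Real.exp (-(i * m)) := hinv.trans (Real.exp_le_exp.2 (by nlinarith))
    have hjL : Real.exp (j * m) ≤ L := le_trans (Real.exp_le_exp.2 (by nlinarith)) hL1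
    have h0 : ∀ k ∈ K, ∃ x : ℝ, x ∈ Y ∧ ∃ a : ℤ, ⌊x * L⌋ = a ∧ |(a : ℝ) / L - v| ≤ Real.exp (-(i * m)) ∧ ⌊(a : ℝ) / L * Real.exp (j * m)⌋ = k := by
      intro k hk
      obtain ⟨a, ha, h1, h2⟩ := hK k hk
      obtain ⟨x, hx, hxa⟩ := (Finset.mem_filter.1 ha).2
      exact ⟨x, hx, a, hxa, h1, h2⟩
    choose! x hxY a hxa hav hak using h0
    set r : ℝ := Real.exp (-(i * m)) with hrdef
    set g : ℤ → ℤ := fun k => ⌊x k * Real.exp (j * m)⌋ with hg
    have hxk : ∀ k ∈ K, (a k : ℝ) / L ≤ x k ∧ x k < (a k : ℝ) / L + 1 / L := by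
      intro k hk
      have h1 := hxa k hk
      rw [Int.floor_eq_iff] at h1
      constructor
      · rw [div_le_iff₀ hLR]
        exact h1.1
      · rw [← add_div, lt_div_iff₀ hLR]
        exact h1.2
    have hgk : ∀ k ∈ K, g k = k ∨ g k = k + 1 := by
      intro k hk
      have h1 := hak k hk
      rw [Int.floor_eq_iff] at h1
      have h2 := hxk k hk
      have hpos := Real.exp_pos ((j : ℝ) * m)
      have h3 : (k : ℝ) ≤ x k * Real.exp (j * m) := h1.1.trans (mul_le_mul_of_nonneg_right h2.1 hpos.le)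
      have h4 : x k * Real.exp (j * m) < k + 1 + 1 := by
        have h5 := mul_lt_mul_of_pos_right h2.2 hpos
        have h6 : 1 / (L : ℝ) * Real.exp (j * m) ≤ 1 := by
          rw [one_div, inv_mul_le_iff₀ hLR, mul_one]
          exact hjL
        rw [add_mul] at h5
        linarith [h1.2]
      have h5 : k ≤ g k := Int.le_floor.2 h3
      have h6 : g k < k + 1 + 1 := by
        rw [hg]
        rw [Int.floor_lt]
        push_cast
        exact h4
      omega
    have hc1 : K.card ≤ 2 * (K.image g).card := by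
      have h1 : K ⊆ (K.image g) ∪ (K.image g).image (fun z => z - 1) := by
        intro k hk
        rcases hgk k hk with h | h
        · exact Finset.mem_union_left _ (Finset.mem_image.2 ⟨k, hk, h⟩)
        · refine Finset.mem_union_right _ (Finset.mem_image.2 ⟨g k, Finset.mem_image_of_mem _ hk, ?_⟩)
          rw [h]
          ring
      have h2 := (Finset.card_le_card h1).trans (Finset.card_union_le _ _)
      have h3 : ((K.image g).image (fun z => z - 1)).card ≤ (K.image g).card := Finset.card_image_le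
      omega
    have hc2 : (K.image g).card ≤ ((K.filter fun k => x k ≤ v).image g).card + ((K.filter fun k => ¬ x k ≤ v).image g).card := by
      have h1 : K.image g ⊆ ((K.filter fun k => x k ≤ v).image g) ∪ ((K.filter fun k => ¬ x k ≤ v).image g) := by
        rw [← Finset.image_union, Finset.filter_union_filter_not_eq]
      exact (Finset.card_le_card h1).trans (Finset.card_union_le _ _)
    have hnear : ∀ k ∈ K, |x k - v| ≤ 2 * r := by
      intro k hk
      have h1 := hav k hk
      have h2 := hxk k hk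
      rw [abs_le] at h1 ⊢
      constructor <;> linarith
    have hc3 : ((((K.filter fun k => x k ≤ v).image g).card : ℕ) : ℝ) ≤ C * Real.exp ((1 / 2 + eta) * ((j - i) * m)) := by
      refine hY.cl i j hij hj (v - r) _ ?_
      intro z hz
      rw [Finset.mem_image] at hz
      obtain ⟨k, hk, rfl⟩ := hz
      rw [Finset.mem_filter] at hk
      refine ⟨x k, hxY k hk.1, ?_, rfl⟩
      have h1 := hnear k hk.1
      rw [abs_le] at h1 ⊢
      constructor <;> linarith [hk.2]
    have hc4 : ((((K.filter fun k => ¬ x k ≤ v).image g).card : ℕ) : ℝ) ≤ C * Real.exp ((1 / 2 + eta) * ((j - i) * m)) := by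
      refine hY.cl i j hij hj (v + r) _ ?_
      intro z hz
      rw [Finset.mem_image] at hz
      obtain ⟨k, hk, rfl⟩ := hz
      rw [Finset.mem_filter] at hk
      refine ⟨x k, hxY k hk.1, ?_, rfl⟩
      have h1 := hnear k hk.1
      have h2 := not_le.1 hk.2
      rw [abs_le] at h1 ⊢
      constructor <;> linarith
    have hc1R : (K.card : ℝ) ≤ 2 * ((K.image g).card : ℝ) := by exact_mod_cast hc1
    have hc2R : ((K.image g).card : ℝ) ≤ ((((K.filter fun k => x k ≤ v).image g).card : ℕ) : ℝ) + ((((K.filter fun k => ¬ x k ≤ v).image g).card : ℕ) : ℝ) := by exact_mod_cast hc2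
    linarith

end

end Pool.Agent.HH
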