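import Pool.Agent.helper17.HH.SpecB

/-!
# Row hh:BV3 (MP_07c750_an): the fixed set is small
-/

open scoped Pointwise
open MeasureTheory Set

set_option autoImplicit false

namespace Pool.Agent.HH

noncomputable section

theorem BV3_proof : BV3_stmt := by
  classical
  intro V μ hμ
  have h1 : ∑ d ∈ V3 V μ, ((V ×ˢ (V ×ˢ V)).filter fun z => z.1 - z.2.1 + z.2.2 = d).card ≤ (V ×ˢ (V ×ˢ V)).card := by
    rw [← Finset.card_biUnion]
    · exact Finset.card_le_card (Finset.biUnion_subset.2 fun d _ => Finset.filter_subset _ _)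
    · intro d _ d' _ hdd
      rw [Function.onFun, Finset.disjoint_left]
      intro z hz hz'
      rw [Finset.mem_filter] at hz hz'
      exact hdd (hz.2.symm.trans hz'.2)
  have h2 : (V ×ˢ (V ×ˢ V)).card = V.card ^ 3 := by
    rw [Finset.card_product, Finset.card_product]
    ring
  rw [h2] at h1
  have h3 : ((V3 V μ).card : ℝ) * μ ≤ ∑ d ∈ V3 V μ, (((V ×ˢ (V ×ˢ V)).filter fun z => z.1 - z.2.1 + z.2.2 = d).card : ℝ) := by
    rw [← nsmul_eq_mul, ← Finset.sum_const]
    refine Finset.sum_le_sum fun d hd => ?_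
    unfold V3 at hd
    exact (Finset.mem_filter.1 hd).2
  refine h3.trans ?_
  exact_mod_cast h1

end

end Pool.Agent.HH
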